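import Pool.Agent.N662.FP.Stm

set_option autoImplicit false

/-! # Project FL: measurability of windows, weights almost surely nonnegative, exponential mean -/

open MeasureTheory ProbabilityTheory Filter Set
open scoped ENNReal Pointwise Topology

namespace Pool.Agent.N327.FL

open Pool.Agent.N662.FP

theorem t_WM : S_WM := by
  intro Ω _ X hX a v N t
  have hcl : IsClosed {x : Sym2 (ℤ × ℤ) → ℝ | Win x a v N t} := by
    have h : {x : Sym2 (ℤ × ℤ) → ℝ | Win x a v N t} = ⋂ n : ℕ, ⋂ _ : n ≤ N, ⋂ p : ℕ → ℤ × ℤ,
        ⋂ _ : p 0 = a, ⋂ _ : p n = v,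
        ⋂ _ : ∀ i < n, |(p (i + 1)).1 - (p i).1| + |(p (i + 1)).2 - (p i).2| = 1,
        {x : Sym2 (ℤ × ℤ) → ℝ | t ≤ ∑ i ∈ Finset.range n, x s(p i, p (i + 1))} := by
      ext x
      simp only [mem_setOf_eq, mem_iInter]
      rfl
    rw [h]
    refine isClosed_iInter fun n => isClosed_iInter fun _ => isClosed_iInter fun p =>
      isClosed_iInter fun _ => isClosed_iInter fun _ => isClosed_iInter fun _ => ?_
    exact isClosed_le continuous_const (continuous_finset_sum _ fun i _ => continuous_apply _)
  have hm : Measurable (env X) := measurable_pi_iff.2 fun e => hX e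
  haveI : Countable (Sym2 (ℤ × ℤ)) := by
    unfold Sym2
    infer_instance
  exact hm hcl.measurableSet

theorem exp_neg : expMeasure 1 (Iio (0 : ℝ)) = 0 := by
  unfold expMeasure gammaMeasure
  rw [withDensity_apply _ measurableSet_Iio]
  exact lintegral_gammaPDF_of_nonpos le_rfl

theorem t_AE : S_AE := by
  intro Ω _ X hX
  haveI : Countable (Sym2 (ℤ × ℤ)) := by
    unfold Sym2
    infer_instance
  refine ae_all_iff.2 fun e => ?_
  have h1 : (volume : Measure Ω) {ω | X e ω < 0} = 0 := by
    have h2 := Measure.map_apply (μ := (volume : Measure Ω)) (hX.meas e) (measurableSet_Iio (a := (0 : ℝ)))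
    rw [hX.law e, exp_neg] at h2
    exact h2.symm
  have h3 : ∀ᵐ ω ∂(volume : Measure Ω), ¬ X e ω < 0 := by
    rw [ae_iff]
    simpa using h1
  filter_upwards [h3] with ω hω
  exact not_lt.1 hω

theorem t_EXPI : S_EXPI := by
  unfold S_EXPI
  have h1 : expMeasure 1 = (volume : Measure ℝ).withDensity (fun x => ENNReal.ofReal (exponentialPDFReal 1 x)) := rfl
  rw [h1, integrable_withDensity_iff ?_ ?_]
  · have h2 : (fun x : ℝ => x * (ENNReal.ofReal (exponentialPDFReal 1 x)).toReal) =
        (Ioi (0 : ℝ)).indicator fun x => Real.exp (-x) * x ^ ((2 : ℝ) - 1) := by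
      funext x
      rw [ENNReal.toReal_ofReal (exponentialPDFReal_nonneg one_pos x)]
      by_cases hx : 0 < x
      · rw [indicator_of_mem (show x ∈ Ioi (0 : ℝ) from hx)]
        have h3 : exponentialPDFReal 1 x = Real.exp (-x) := by
          unfold exponentialPDFReal gammaPDFReal
          rw [if_pos hx.le]
          simp
        rw [h3, show ((2 : ℝ) - 1) = 1 by norm_num, Real.rpow_one, mul_comm]
      · rw [indicator_of_notMem (show x ∉ Ioi (0 : ℝ) from hx)]
        rcases (not_lt.1 hx).lt_or_eq with h0 | h0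
        · have h3 : exponentialPDFReal 1 x = 0 := by
            unfold exponentialPDFReal gammaPDFReal
            rw [if_neg (not_le.2 h0)]
          rw [h3, mul_zero]
        · rw [h0, zero_mul]
    rw [h2, integrable_indicator_iff measurableSet_Ioi]
    exact Real.GammaIntegral_convergent (by norm_num)
  · exact (measurable_exponentialPDFReal 1).ennreal_ofReal
  · exact Filter.Eventually.of_forall fun x => ENNReal.ofReal_lt_top

end Pool.Agent.N327.FL
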